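import Pool.Agent.C2.Stmts

set_option autoImplicit false

namespace Pool.Agent.C2.H89

open Finset

/-- inclusion and exclusion over the zero set of one vector -/
lemma incOne {F V : Type} [Field F] [DecidableEq F] [Fintype V] [DecidableEq V] (k : V → F) :
    (∑ I : Finset V, (if ∀ x ∈ I, k x = 0 then (-1 : ℤ) ^ I.card else 0)) =
      if ∀ x, k x ≠ 0 then 1 else 0 := by
  classical
  have h1 : (∑ I : Finset V, (if ∀ x ∈ I, k x = 0 then (-1 : ℤ) ^ I.card else 0)) =
      ∑ I ∈ (univ.filter fun x => k x = 0).powerset, (-1 : ℤ) ^ I.card := by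
    rw [← Finset.sum_filter]
    refine Finset.sum_congr ?_ fun _ _ => rfl
    ext I
    simp only [Finset.mem_filter, Finset.mem_univ, true_and, Finset.mem_powerset,
      Finset.subset_iff]
  rw [h1, Finset.sum_powerset_neg_one_pow_card]
  by_cases h : ∀ x, k x ≠ 0
  · rw [if_pos h, if_pos]
    exact Finset.filter_eq_empty_iff.mpr fun x _ => h x
  · rw [if_neg h, if_neg]
    intro h2
    exact h fun x => Finset.filter_eq_empty_iff.mp h2 (Finset.mem_univ x)

/-- counting as a sum -/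
lemma cardSum {X : Type} [Fintype X] (P : X → Prop) [DecidablePred P] :
    ((Nat.card {x : X // P x} : ℕ) : ℤ) = ∑ x : X, if P x then (1 : ℤ) else 0 := by
  classical
  rw [Nat.card_eq_fintype_card, Fintype.card_subtype, Finset.sum_boole]

/-- inclusion and exclusion for a set of vectors -/
lemma incSet {F V J : Type} [Field F] [Fintype F] [DecidableEq F] [Fintype V] [DecidableEq V]
    (A : (V → F) → Prop) (o : J → V) :
    ((Nat.card {k : V → F // A k ∧ ∀ x, k x ≠ 0} : ℕ) : ℤ) =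
      ∑ I : Finset V, (-1 : ℤ) ^ I.card *
        ((Nat.card {k : V → F // A k ∧ (∀ j, k (o j) ≠ 0) ∧ ∀ x ∈ I, k x = 0} : ℕ) : ℤ) := by
  classical
  simp only [cardSum, Finset.mul_sum]
  rw [Finset.sum_comm]
  refine Finset.sum_congr rfl fun k _ => ?_
  by_cases hA : A k
  · by_cases hB : ∀ j, k (o j) ≠ 0
    · have h := incOne k
      simp only [hA, hB, true_and, implies_true, mul_ite, mul_one, mul_zero, ne_eq,
        not_false_eq_true]
      simp only [ne_eq] at h
      exact h.symm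
    · have hC : ¬ ∀ x, k x ≠ 0 := fun h => hB fun j => h (o j)
      rw [if_neg fun h => hC h.2]
      symm
      refine Finset.sum_eq_zero fun I _ => ?_
      rw [if_neg fun h => hB h.2.1, mul_zero]
  · rw [if_neg fun h => hA h.1]
    symm
    refine Finset.sum_eq_zero fun I _ => ?_
    rw [if_neg fun h => hA h.1, mul_zero]

theorem inc : IncStmt := by
  intro F _ _ _ V E _ _ _ _ s t J o
  unfold SA SI
  have h1 : ∀ (b : E → F) (d : V → F),
      wt b * (kerL s t b d : ℤ) ^ 2 *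
        ((Nat.card {k : V → F // (∀ x, Lap s t b d k x = 0) ∧ ∀ x, k x ≠ 0} : ℕ) : ℤ) =
      ∑ I : Finset V, (-1 : ℤ) ^ I.card * (wt b * (kerL s t b d : ℤ) ^ 2 *
        ((Nat.card {k : V → F // (∀ x, Lap s t b d k x = 0) ∧ (∀ j, k (o j) ≠ 0) ∧
          ∀ x ∈ I, k x = 0} : ℕ) : ℤ)) := by
    intro b d
    rw [incSet (fun k => ∀ x, Lap s t b d k x = 0) o, Finset.mul_sum]
    refine Finset.sum_congr rfl fun I _ => ?_
    ring
  calc _ = ∑ b : E → F, ∑ d : V → F, ∑ I : Finset V,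
        (-1 : ℤ) ^ I.card * (wt b * (kerL s t b d : ℤ) ^ 2 *
        ((Nat.card {k : V → F // (∀ x, Lap s t b d k x = 0) ∧ (∀ j, k (o j) ≠ 0) ∧
          ∀ x ∈ I, k x = 0} : ℕ) : ℤ)) :=
        Finset.sum_congr rfl fun b _ => Finset.sum_congr rfl fun d _ => h1 b d
    _ = ∑ b : E → F, ∑ I : Finset V, ∑ d : V → F,
        (-1 : ℤ) ^ I.card * (wt b * (kerL s t b d : ℤ) ^ 2 *
        ((Nat.card {k : V → F // (∀ x, Lap s t b d k x = 0) ∧ (∀ j, k (o j) ≠ 0) ∧
          ∀ x ∈ I, k x = 0} : ℕ) : ℤ)) :=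
        Finset.sum_congr rfl fun b _ => Finset.sum_comm
    _ = ∑ I : Finset V, ∑ b : E → F, ∑ d : V → F,
        (-1 : ℤ) ^ I.card * (wt b * (kerL s t b d : ℤ) ^ 2 *
        ((Nat.card {k : V → F // (∀ x, Lap s t b d k x = 0) ∧ (∀ j, k (o j) ≠ 0) ∧
          ∀ x ∈ I, k x = 0} : ℕ) : ℤ)) := Finset.sum_comm
    _ = _ := by
        refine Finset.sum_congr rfl fun I _ => ?_
        simp only [Finset.mul_sum]

end Pool.Agent.C2.H89
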